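import Mathlib

set_option autoImplicit false

namespace Pool.Agent.Results.MP_d92cd9_co.EvenZero

open Finset

/-- `b` is a non-minority ball of the colouring `c`. -/
def NonMin {n : ℕ} (c : Fin n → Bool) (b : Fin n) : Prop := n ≤ 2 * #{x | c x = c b}

/-- `α` is an answer function for the query set `Q`, valid under `c`. -/
def Valid {n : ℕ} (Q : Finset (Finset (Fin n))) (c : Fin n → Bool) (α : Q → Fin n) : Prop :=
  ∀ T : Q, α T ∈ T.1 ∧ ∃ y ∈ T.1, y ≠ α T ∧ c y = c (α T)

/-- `Q` is a set of triples that determines a non-minority ball. -/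
def Determines {n : ℕ} (Q : Finset (Finset (Fin n))) : Prop :=
  (∀ T ∈ Q, #T = 3) ∧ ∃ f : (Q → Fin n) → Fin n, ∀ c α, Valid Q c α → NonMin c (f α)

/-- For even `n ≥ 4` some determining query set has minimum co-degree `0`, so `m(n) = 0`. -/
theorem result (n : ℕ) (hn : 4 ≤ n) (he : Even n) : ∃ Q : Finset (Finset (Fin n)),
    Determines Q ∧ ∃ x y : Fin n, x ≠ y ∧ #{T ∈ Q | {x, y} ⊆ T} = 0 := by
  classical
  obtain ⟨k, hk⟩ := he
  let w : Fin n := ⟨0, by omega⟩
  refine ⟨powersetCard 3 (univ.erase w), ⟨fun T hT => (mem_powersetCard.1 hT).2, ?_⟩,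
    w, ⟨1, by omega⟩, by simp [w], card_eq_zero.2 (filter_eq_empty_iff.2 fun T hT h => by
      simpa using (mem_powersetCard.1 hT).1 (h (mem_insert_self _ _)))⟩
  suffices h : ∀ α, ∃ b, ∀ c, Valid (powersetCard 3 (univ.erase w)) c α → NonMin c b by
    choose f hf using h; exact ⟨f, fun c α => hf α c⟩
  intro α
  by_contra hc
  push Not at hc
  let M : (Fin n → Bool) → Finset (Fin n) := fun c => {b | ¬ NonMin c b}
  have same : ∀ c, ∀ x ∈ M c, ∀ y, y ∈ M c ↔ c y = c x := by
    intro c x hx y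
    simp only [M, mem_filter, mem_univ, true_and, NonMin, not_le] at hx ⊢
    refine ⟨fun hy => by_contra fun h => ?_, fun h => by rw [h]; exact hx⟩
    have := card_filter_add_card_filter_not (s := univ) fun z => c z = c x
    rw [filter_congr (q := fun z => c z = c y) (fun z _ => by
      revert h; cases c z <;> cases c x <;> cases c y <;> simp) (p := fun z => ¬ c z = c x)] at this
    simp only [card_univ, Fintype.card_fin] at this
    omega
  have small : ∀ c, #(M c) < k := fun c => by
    rcases (M c).eq_empty_or_nonempty with h | ⟨x, hx⟩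
    · rw [h, card_empty]; omega
    · have : M c = univ.filter fun y => c y = c x := by ext y; simpa using same c x hx y
      rw [this]
      simp only [M, mem_filter, mem_univ, true_and, NonMin, not_le] at hx
      omega
  obtain ⟨c0, h0, -⟩ := hc w
  obtain ⟨⟨c1, c2⟩, h12, mx⟩ := exists_max_image
    ({p | Valid _ p.1 α ∧ Valid _ p.2 α} : Finset ((Fin n → Bool) × (Fin n → Bool)))
    (fun p => #(insert w (M p.1 ∪ M p.2))) ⟨(c0, c0), by simpa using h0⟩
  simp only [mem_filter, mem_univ, true_and] at h12 mx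
  obtain ⟨z, -, hz⟩ := exists_mem_notMem_of_card_lt_card (s := insert w (M c1 ∪ M c2)) (t := univ) (by
    have := card_insert_le w (M c1 ∪ M c2)
    have := card_union_le (M c1) (M c2)
    have := small c1
    have := small c2
    rw [card_univ, Fintype.card_fin]; omega)
  obtain ⟨c3, h3, hz3⟩ := hc z
  have hz3 : z ∈ M c3 := by simpa [M] using hz3
  have pick : ∀ a b, Valid _ b α → M a ∪ M b = M c1 ∪ M c2 →
      ∃ x ∈ M a, x ∉ insert w (M b ∪ M c3) := fun a b hb e => by
    by_contra h
    push Not at h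
    refine (mx (b, c3) ⟨hb, h3⟩).not_gt (card_lt_card ⟨?_, fun s => hz (s (by simp [hz3]))⟩)
    rw [← e]
    exact insert_subset (mem_insert_self _ _) (union_subset h fun x hx => by simp [hx])
  obtain ⟨x, x1, x2⟩ := pick c1 c2 h12.2 rfl
  obtain ⟨y, y1, y2⟩ := pick c2 c1 h12.1 (union_comm _ _)
  simp only [mem_insert, mem_union, not_or] at x2 y2 hz
  have T : ({x, y, z} : Finset (Fin n)) ∈ powersetCard 3 (univ.erase w) :=
    mem_powersetCard.2 ⟨by simp [insert_subset_iff, x2.1, y2.1, hz.1],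
      card_eq_three.2 ⟨x, y, z, by grind, by grind, by grind, rfl⟩⟩
  obtain ⟨a, u1, b1, d1, e1⟩ := h12.1 ⟨_, T⟩
  obtain ⟨-, u2, b2, d2, e2⟩ := h12.2 ⟨_, T⟩
  obtain ⟨-, u3, b3, d3, e3⟩ := h3 ⟨_, T⟩
  have s1 := same c1 x x1 u1
  have s2 := same c2 y y1 u2
  have s3 := same c3 z hz3 u3
  simp only [mem_insert, mem_singleton] at a b1 b2 b3
  generalize α ⟨_, T⟩ = t at *
  clear mx pick small same hc h0 h12 h3 T
  generalize M c1 = M1, M c2 = M2, M c3 = M3 at *
  grind

end Pool.Agent.Results.MP_d92cd9_co.EvenZero
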